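import Pool.Agent.Helper96.SE.St

set_option autoImplicit false

namespace Pool.Agent.Helper62.SE

open NumberField IsDedekindDomain Polynomial Filter Topology
open Pool.Agent.Helper96.SE Pool.Agent.Helper96.BC Pool.Agent.Helper95.TT Pool.Agent.Helper24.TF
  Pool.Agent.Helper95.WS
open scoped Classical

private theorem fin_E11 {k : Type} [Field k] [NumberField k] (v : Pr k) : Finite (Kv v) :=
  Ideal.finiteQuotientOfFreeOfNeBot _ v.ne_bot

private theorem qcard_E11 {k : Type} [Field k] [NumberField k] (v : Pr k) : q v = Nat.card (Kv v) := by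
  unfold q
  rw [Ideal.absNorm_apply, Submodule.cardQuot_apply]

private theorem qpos_E11 {k : Type} [Field k] [NumberField k] (v : Pr k) : 0 < q v := by
  have := fin_E11 v
  rw [qcard_E11]
  exact Nat.card_pos

private theorem q1_E11 {k : Type} [Field k] [NumberField k] (v : Pr k) : (1 : ℝ) ≤ (q v : ℝ) := by
  exact_mod_cast qpos_E11 v

private theorem wt_nonneg_E11 {k : Type} [Field k] [NumberField k] (s : ℝ) (v : Pr k) :
    0 ≤ wt s v :=
  mul_nonneg (Real.log_natCast_nonneg _) (Real.rpow_nonneg (Nat.cast_nonneg _) _)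

private theorem wt_anti_E11 {k : Type} [Field k] [NumberField k] {s t : ℝ} (h : s ≤ t) (v : Pr k) :
    wt t v ≤ wt s v :=
  mul_le_mul_of_nonneg_left (Real.rpow_le_rpow_of_exponent_le (q1_E11 v) (by linarith))
    (Real.log_natCast_nonneg _)

private theorem sum_E11 (hA2 : StA2) {k : Type} [Field k] [NumberField k] (a : Pr k → ℝ) (B : ℝ)
    (hB : ∀ v, |a v| ≤ B) (s : ℝ) (hs : 1 < s) : Summable (fun v => a v * wt s v) := by
  refine Summable.of_norm_bounded (g := fun v => B * wt s v) (((hA2 k).1 s hs).mul_left B) ?_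
  intro v
  rw [Real.norm_eq_abs, abs_mul, abs_of_nonneg (wt_nonneg_E11 s v)]
  exact mul_le_mul_of_nonneg_right (hB v) (wt_nonneg_E11 s v)

private theorem small_E11 (hA2 : StA2) {k : Type} [Field k] [NumberField k] (a : Pr k → ℝ) (B C : ℝ)
    (R : Set (Pr k)) (hR : R.Finite) (hB : ∀ v, |a v| ≤ B)
    (hC : ∀ v, v ∉ R → |a v| * √(q v) ≤ C) :
    Tendsto (fun s : ℝ => (s - 1) * ∑' v : Pr k, a v * wt s v) (𝓝[>] 1) (𝓝 0) := by
  have hB0 : 0 ≤ B ∨ IsEmpty (Pr k) := by
    by_cases h : Nonempty (Pr k)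
    · obtain ⟨v⟩ := h
      exact Or.inl ((abs_nonneg _).trans (hB v))
    · exact Or.inr (not_nonempty_iff.1 h)
  set g : Pr k → ℝ := fun v => |C| * wt (3 / 2) v + (if v ∈ R then |B| * wt 1 v else 0) with hg
  have hgs : Summable g := by
    apply Summable.add
    · exact ((hA2 k).1 (3 / 2) (by norm_num)).mul_left _
    · apply summable_of_hasFiniteSupport
      apply hR.subset
      intro v hv
      by_contra hc
      simp [hc] at hv
  have hbd : ∀ s : ℝ, 1 ≤ s → ∀ v, ‖a v * wt s v‖ ≤ g v := by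
    intro s hs v
    rw [Real.norm_eq_abs, abs_mul, abs_of_nonneg (wt_nonneg_E11 s v)]
    by_cases hv : v ∈ R
    · have h1 : |a v| * wt s v ≤ |B| * wt 1 v :=
        mul_le_mul ((hB v).trans (le_abs_self _)) (wt_anti_E11 hs v) (wt_nonneg_E11 s v) (abs_nonneg _)
      have h2 : 0 ≤ |C| * wt (3 / 2) v := mul_nonneg (abs_nonneg _) (wt_nonneg_E11 _ v)
      simp only [hg, hv, if_true]
      linarith
    · simp only [hg, hv, if_false, add_zero]
      have hq := q1_E11 v
      have hq0 : (0 : ℝ) < q v := by linarith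
      have h1 : wt s v ≤ wt 1 v := wt_anti_E11 hs v
      have h2 : wt 1 v = √(q v) * wt (3 / 2) v := by
        unfold wt
        rw [Real.sqrt_eq_rpow, mul_left_comm, ← Real.rpow_add hq0]
        norm_num
      calc |a v| * wt s v ≤ |a v| * wt 1 v := mul_le_mul_of_nonneg_left h1 (abs_nonneg _)
        _ = (|a v| * √(q v)) * wt (3 / 2) v := by rw [h2]; ring
        _ ≤ |C| * wt (3 / 2) v :=
          mul_le_mul_of_nonneg_right ((hC v hv).trans (le_abs_self _)) (wt_nonneg_E11 _ v)
  have hle : ∀ s : ℝ, 1 < s → ‖(s - 1) * ∑' v : Pr k, a v * wt s v‖ ≤ (s - 1) * ∑' v, g v := by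
    intro s hs
    rw [norm_mul, Real.norm_eq_abs (s - 1), abs_of_pos (by linarith : (0 : ℝ) < s - 1)]
    exact mul_le_mul_of_nonneg_left (tsum_of_norm_bounded hgs.hasSum (hbd s hs.le)) (by linarith)
  have hlim : Tendsto (fun s : ℝ => (s - 1) * ∑' v, g v) (𝓝[>] 1) (𝓝 0) := by
    have h1 : Tendsto (fun s : ℝ => (s - 1) * ∑' v, g v) (𝓝 1) (𝓝 ((1 - 1) * ∑' v, g v)) :=
      ((continuous_id.sub continuous_const).mul continuous_const).tendsto 1
    rw [sub_self, zero_mul] at h1
    exact h1.mono_left nhdsWithin_le_nhds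
  exact squeeze_zero_norm' (eventually_nhdsWithin_of_forall (fun s hs => hle s hs)) hlim

private theorem trans_E11 (hA2 : StA2) {k : Type} [Field k] [NumberField k] (a b : Pr k → ℝ)
    (B C : ℝ) (R : Set (Pr k)) (hR : R.Finite) (ha : ∀ v, |a v| ≤ B) (hb : ∀ v, |b v| ≤ B)
    (hC : ∀ v, v ∉ R → |a v - b v| * √(q v) ≤ C)
    (hlim : Tendsto (fun s : ℝ => (s - 1) * ∑' v : Pr k, b v * wt s v) (𝓝[>] 1) (𝓝 0)) :
    Tendsto (fun s : ℝ => (s - 1) * ∑' v : Pr k, a v * wt s v) (𝓝[>] 1) (𝓝 0) := by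
  have h1 := small_E11 hA2 (fun v => a v - b v) (2 * B) C R hR
    (fun v => (abs_sub _ _).trans (by linarith [ha v, hb v])) hC
  have h2 := h1.add hlim
  rw [add_zero] at h2
  refine h2.congr' ?_
  refine eventually_nhdsWithin_of_forall (fun s hs => ?_)
  have hs' : 1 < s := hs
  have e1 := sum_E11 hA2 (fun v => a v - b v) (2 * B)
    (fun v => (abs_sub _ _).trans (by linarith [ha v, hb v])) s hs'
  have e2 := sum_E11 hA2 b B hb s hs'
  beta_reduce
  rw [← mul_add, ← e1.tsum_add e2]
  congr 1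
  apply tsum_congr
  intro v
  ring

private theorem nu_le_E11 (hE7 : StE7) {k : Type} [Field k] [NumberField k] {n : ℕ}
    (hn : n.Prime) (v : Pr k) (c : Kv v) :
    |((Nat.card {z : Kv v // z ^ n = c} : ℝ) - 1)| ≤ n := by
  have := fin_E11 v
  let : Fintype (Kv v) := Fintype.ofFinite _
  have : v.asIdeal.IsMaximal := v.isMaximal
  let : Field (Kv v) := Ideal.Quotient.field v.asIdeal
  have h1 : Nat.card {z : Kv v // z ^ n = c} ≤ n := (hE7 (Kv v) n hn).2.2.1 c
  have h2 : ((Nat.card {z : Kv v // z ^ n = c} : ℕ) : ℝ) ≤ n := by exact_mod_cast h1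
  have h3 : (0 : ℝ) ≤ ((Nat.card {z : Kv v // z ^ n = c} : ℕ) : ℝ) := Nat.cast_nonneg _
  have h4 : (1 : ℝ) ≤ n := by exact_mod_cast hn.one_lt.le
  rw [abs_le]
  constructor <;> linarith

private theorem av_le_E11 (hE7 : StE7) {k : Type} [Field k] [NumberField k] {m n : ℕ}
    (hn : n.Prime) (E : Py k m) (v : Pr k) : |avN n E v| ≤ n := by
  have := fin_E11 v
  have : Fintype (Kv v) := Fintype.ofFinite _
  unfold avN
  rw [abs_div, abs_of_nonneg (by positivity : (0 : ℝ) ≤ (q v : ℝ) ^ m)]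
  have hq : (0 : ℝ) < (q v : ℝ) ^ m := pow_pos (by exact_mod_cast qpos_E11 v) m
  rw [div_le_iff₀ hq, finsum_eq_sum_of_fintype]
  calc |∑ y : Fin m → Kv v, ((Nat.card {z : Kv v // z ^ n = val v y E} : ℝ) - 1)|
        ≤ ∑ y : Fin m → Kv v, |((Nat.card {z : Kv v // z ^ n = val v y E} : ℝ) - 1)| :=
        Finset.abs_sum_le_sum_abs _ _
    _ ≤ ∑ _y : Fin m → Kv v, (n : ℝ) := Finset.sum_le_sum (fun y _ => nu_le_E11 hE7 hn v _)
    _ = n * (q v : ℝ) ^ m := by
        rw [Finset.sum_const, nsmul_eq_mul, Finset.card_univ, Fintype.card_fun,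
          Fintype.card_fin, qcard_E11, Nat.card_eq_fintype_card]
        push_cast
        ring

theorem hE11 : StA2 → StE7 → StO2 → StO4 → StE11 := by
  intro hA2 hE7 hO2 hO4 k _ _ m
  induction m with
  | zero =>
    intro n E hn hE hpow
    set a : 𝓞 k := MvPolynomial.coeff 0 E with ha
    have hEa : E = MvPolynomial.C a := MvPolynomial.eq_C_of_isEmpty E
    have hna : ∀ x : k, x ^ n ≠ algebraMap (𝓞 k) k a := by
      intro x hx
      apply hpow
      have hint : IsIntegral (𝓞 k) (x ^ n) := by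
        rw [hx]
        exact isIntegral_algebraMap
      obtain ⟨b, hb⟩ := IsIntegrallyClosed.exists_algebraMap_eq_of_isIntegral_pow
        (R := 𝓞 k) (K := k) (n := n) hn.pos hint
      have hab : a = b ^ n := by
        apply FaithfulSMul.algebraMap_injective (𝓞 k) k
        rw [← hx, map_pow, hb]
      refine ⟨algebraMap (Py k 0) (Ky k 0) (MvPolynomial.C b), ?_⟩
      rw [hEa, hab, ← map_pow, ← map_pow]
    have hmon : (X ^ n - C a : (𝓞 k)[X]).Monic := monic_X_pow_sub_C a hn.ne_zero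
    have hirr : Irreducible ((X ^ n - C a : (𝓞 k)[X]).map (algebraMap (𝓞 k) k)) := by
      rw [Polynomial.map_sub, Polynomial.map_pow, Polynomial.map_X, Polynomial.map_C]
      exact X_pow_sub_C_irreducible_of_prime hn hna
    have hRt : ∀ v : Pr k, avN n E v = (Rt (X ^ n - C a : (𝓞 k)[X]) v : ℝ) - 1 := by
      intro v
      unfold avN Rt
      have := fin_E11 v
      have : Fintype (Kv v) := Fintype.ofFinite _
      rw [finsum_eq_sum_of_fintype, pow_zero, div_one]
      rw [Fintype.sum_eq_single (default : Fin 0 → Kv v)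
        (fun y hy => absurd (Subsingleton.elim _ _) hy)]
      congr 2
      refine Nat.card_congr (Equiv.subtypeEquivRight fun z => ?_)
      rw [hEa]
      simp [val, sub_eq_zero]
    have h2 := (hO2 k _ hmon hirr).sub (hA2 k).2
    rw [sub_self] at h2
    refine h2.congr' ?_
    refine eventually_nhdsWithin_of_forall (fun s hs => ?_)
    have hs' : 1 < s := hs
    have e1 := (hA2 k).1 s hs'
    have e2 : Summable (fun v : Pr k => (Rt (X ^ n - C a : (𝓞 k)[X]) v : ℝ) * wt s v) := by
      refine sum_E11 hA2 _ (n + 1) (fun v => ?_) s hs'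
      have h3 := av_le_E11 hE7 hn E v
      rw [hRt v] at h3
      rw [abs_le] at h3 ⊢
      constructor <;> linarith [h3.1, h3.2]
    beta_reduce
    rw [← mul_sub, ← e2.tsum_sub e1]
    congr 1
    apply tsum_congr
    intro v
    rw [hRt v]
    ring
  | succ m ih =>
    intro n E hn hE hpow
    obtain ⟨C, R, hR, h | ⟨e, he, hep, h⟩⟩ := hO4 k m n E hn hE hpow
    · exact small_E11 hA2 _ n C R hR (fun v => av_le_E11 hE7 hn E v) h
    · refine trans_E11 hA2 (fun v => avN n E v) (fun v => avN n e v) n C R hR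
        (fun v => av_le_E11 hE7 hn E v) (fun v => av_le_E11 hE7 hn e v) ?_ (ih n e hn he hep)
      intro v hv
      refine le_trans (mul_le_mul_of_nonneg_left ?_ (abs_nonneg _)) (h v hv)
      rw [Real.sqrt_le_left (by positivity)]
      have := q1_E11 v
      nlinarith

end Pool.Agent.Helper62.SE
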